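import Pool.Agent.P.MP_26a8c3_nt.Hyb10
import Pool.Agent.P.MP_26a8c3_nt.HybS.Sharp

/-! The constant `2 - δ` in the Brun-Titchmarsh inequality when `x` lies between two fixed powers
of `y / k`, uniformly in the modulus and in the length of the interval. -/

namespace Pool.Agent.P.MP_26a8c3_nt.Old.HybridRange

open Pool.Agent.P.MP_26a8c3_nt

/-- The bound for every `y / k > 1`, and an explicit `δ` when `y / k` is large. -/
theorem both (η A : ℝ) (hη : 0 < η) (hη1 : η ≤ 1) (hA : 1 ≤ A) :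
    (∃ δ : ℝ, 0 < δ ∧ ∀ k : ℕ, ∀ l : ℤ, ∀ x y : ℝ,
      1 ≤ k → (k : ℝ) < y → y ≤ x → Int.gcd l (k : ℤ) = 1 →
        (y / (k : ℝ)) ^ (1 + η) ≤ x → x ≤ (y / (k : ℝ)) ^ A →
          (({p : ℕ | p.Prime ∧ x - y < (p : ℝ) ∧ (p : ℝ) ≤ x ∧
              (p : ℤ) ≡ l [ZMOD (k : ℤ)]}.ncard : ℕ) : ℝ) <
            (2 - δ) * y / ((Nat.totient k : ℝ) * Real.log (y / (k : ℝ)))) ∧
    (∃ T₀ : ℝ, ∀ k : ℕ, ∀ l : ℤ, ∀ x y : ℝ,
      1 ≤ k → T₀ ≤ y / (k : ℝ) → y ≤ x → Int.gcd l (k : ℤ) = 1 →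
        (y / (k : ℝ)) ^ (1 + η) ≤ x → x ≤ (y / (k : ℝ)) ^ A →
          (({p : ℕ | p.Prime ∧ x - y < (p : ℝ) ∧ (p : ℝ) ≤ x ∧
              (p : ℤ) ≡ l [ZMOD (k : ℤ)]}.ncard : ℕ) : ℝ) <
            (2 - η ^ 2 / (10 ^ 15 * A ^ 6)) * y /
              ((Nat.totient k : ℝ) * Real.log (y / (k : ℝ)))) := by
  obtain ⟨T₀, hT₀, h⟩ := Hyb.large hη hη1 hA
  refine ⟨?_, T₀, fun k l x y a b c d e f => h k l x y a c d b e f⟩
  have hc : 0 < 5 / 2 - Real.log 5 := by linarith [Real.log_five_lt_d9]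
  set c := 5 / 2 - Real.log 5 with hcd
  have hL : 0 ≤ Real.log T₀ := Real.log_nonneg hT₀
  refine ⟨min (η ^ 2 / (10 ^ 15 * A ^ 6)) (2 * c / (Real.log T₀ + c)),
    lt_min (by positivity) (by positivity), fun k l x y hk hky hyx hl h1 h2 => ?_⟩
  have hk' : (0 : ℝ) < k := by exact_mod_cast hk
  have hy : 0 < y := hk'.trans hky
  have hl0 : 0 < Real.log (y / k) := Real.log_pos ((one_lt_div hk').2 hky)
  have hφ : (0 : ℝ) < k.totient := by exact_mod_cast Nat.totient_pos.2 hk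
  by_cases hT : T₀ ≤ y / k
  · refine (h k l x y hk hyx hl hT h1 h2).trans_le ?_
    gcongr
    exact min_le_left _ _
  · obtain ⟨l', S, hS, hcard⟩ := HybS.exists_good (k := k) hk l x y
    rw [hcard]
    refine (HybS.sharp_fin hS hk hky).trans_le ?_
    have a1 : Real.log (y / k) ≤ Real.log T₀ := Real.log_le_log (by positivity) (not_le.1 hT).le
    have a2 := min_le_right (η ^ 2 / (10 ^ 15 * A ^ 6)) (2 * c / (Real.log T₀ + c))
    have a3 : 0 ≤ min (η ^ 2 / (10 ^ 15 * A ^ 6)) (2 * c / (Real.log T₀ + c)) :=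
      le_min (by positivity) (by positivity)
    generalize min (η ^ 2 / (10 ^ 15 * A ^ 6)) (2 * c / (Real.log T₀ + c)) = δ at a2 a3 ⊢
    rw [le_div_iff₀ (by positivity)] at a2
    rw [← hcd, div_le_div_iff₀ (by positivity) (by positivity)]
    have a4 : δ * (Real.log (y / k) + c) ≤ 2 * c := le_trans (by gcongr) a2
    nlinarith [mul_le_mul_of_nonneg_left a4 (mul_pos hy hφ).le]

theorem result (η A : ℝ) (hη : 0 < η) (hη1 : η ≤ 1) (hA : 1 ≤ A) :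
    ∃ δ : ℝ, 0 < δ ∧ ∀ k : ℕ, ∀ l : ℤ, ∀ x y : ℝ,
      1 ≤ k → (k : ℝ) < y → y ≤ x → Int.gcd l (k : ℤ) = 1 →
        (y / (k : ℝ)) ^ (1 + η) ≤ x → x ≤ (y / (k : ℝ)) ^ A →
          (({p : ℕ | p.Prime ∧ x - y < (p : ℝ) ∧ (p : ℝ) ≤ x ∧
              (p : ℤ) ≡ l [ZMOD (k : ℤ)]}.ncard : ℕ) : ℝ) <
            (2 - δ) * y / ((Nat.totient k : ℝ) * Real.log (y / (k : ℝ))) :=
  (both η A hη hη1 hA).1

end Pool.Agent.P.MP_26a8c3_nt.Old.HybridRange
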