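import Pool.Agent.P.MP_26a8c3_nt.QE.All

/-! The constant `2 - δ` in the Brun-Titchmarsh inequality when `x` is at most a fixed power of
`y / k`, uniformly in the modulus and in the length of the interval. -/

namespace Pool.Agent.P.MP_26a8c3_nt.Old.PowerRange

theorem result (A : ℝ) :
    ∃ δ : ℝ, 0 < δ ∧ ∀ k : ℕ, ∀ l : ℤ, ∀ x y : ℝ,
      1 ≤ k → (k : ℝ) < y → y ≤ x → Int.gcd l (k : ℤ) = 1 → x ≤ (y / (k : ℝ)) ^ A →
        (({p : ℕ | p.Prime ∧ x - y < (p : ℝ) ∧ (p : ℝ) ≤ x ∧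
            (p : ℤ) ≡ l [ZMOD (k : ℤ)]}.ncard : ℕ) : ℝ) <
          (2 - δ) * y / ((Nat.totient k : ℝ) * Real.log (y / (k : ℝ))) :=
  Pool.Agent.P.MP_26a8c3_nt.QE.fin Pool.Agent.P.MP_26a8c3_nt.QE.sZ A

end Pool.Agent.P.MP_26a8c3_nt.Old.PowerRange
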