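import Pool.Agent.P.MP_26a8c3_nt.Sharp

/-! The best additive constant in the Brun-Titchmarsh inequality on the whole range `k < y`. -/

namespace Pool.Agent.P.MP_26a8c3_nt.Old.SharpShift

open Pool.Agent.P.MP_26a8c3_nt

theorem result :
    IsGreatest {c : ℝ | ∀ k : ℕ, ∀ l : ℤ, ∀ x y : ℝ,
        1 ≤ k → (k : ℝ) < y → y ≤ x → Int.gcd l (k : ℤ) = 1 →
          (({p : ℕ | p.Prime ∧ x - y < (p : ℝ) ∧ (p : ℝ) ≤ x ∧
              (p : ℤ) ≡ l [ZMOD (k : ℤ)]}.ncard : ℕ) : ℝ) <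
            2 * y / ((Nat.totient k : ℝ) * (Real.log (y / (k : ℝ)) + c))}
      (5 / 2 - Real.log 5) := by
  constructor
  · intro k l x y hk hky _ _
    obtain ⟨l', A, hA, hcard⟩ := exists_good (k := k) hk l x y
    rw [hcard]
    exact sharp_fin hA hk hky
  · intro c hc
    by_contra hlt
    have hlt' : 5 / 2 - Real.log 5 < c := not_le.1 hlt
    obtain ⟨y, hy5, hy7, hyc⟩ : ∃ y : ℝ, 5 < y ∧ y ≤ 7 ∧ y / 2 ≤ Real.log 5 + c :=
      ⟨min 7 (2 * (Real.log 5 + c)), lt_min (by norm_num) (by linarith), min_le_left _ _, by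
        have := min_le_right 7 (2 * (Real.log 5 + c))
        linarith⟩
    have h := hc 1 0 7 y le_rfl (by norm_num; linarith) hy7 (by simp)
    obtain ⟨l', A, -, hcard⟩ := exists_good (k := 1) one_pos 0 7 y
    have hfin : {p : ℕ | p.Prime ∧ 7 - y < (p : ℝ) ∧ (p : ℝ) ≤ 7 ∧
        (p : ℤ) ≡ 0 [ZMOD ((1 : ℕ) : ℤ)]}.Finite :=
      (Set.finite_Iic 7).subset fun p hp => by
        have : (p : ℝ) ≤ 7 := hp.2.2.1
        exact_mod_cast this
    have hsub : (({2, 3, 5, 7} : Finset ℕ) : Set ℕ) ⊆ {p : ℕ | p.Prime ∧ 7 - y < (p : ℝ) ∧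
        (p : ℝ) ≤ 7 ∧ (p : ℤ) ≡ 0 [ZMOD ((1 : ℕ) : ℤ)]} := by
      intro p hp
      simp only [Finset.coe_insert, Finset.coe_singleton, Set.mem_insert_iff,
        Set.mem_singleton_iff] at hp
      rcases hp with rfl | rfl | rfl | rfl <;>
        exact ⟨by norm_num, by norm_num; linarith, by norm_num, Int.modEq_one⟩
    have h4 := Set.ncard_le_ncard hsub hfin
    rw [Set.ncard_coe_finset] at h4
    have h5 : (4 : ℝ) ≤ ({p : ℕ | p.Prime ∧ 7 - y < (p : ℝ) ∧ (p : ℝ) ≤ 7 ∧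
        (p : ℤ) ≡ 0 [ZMOD ((1 : ℕ) : ℤ)]}.ncard : ℕ) := by exact_mod_cast h4
    have h6 : Real.log 5 ≤ Real.log y := Real.log_le_log (by norm_num) hy5.le
    have h7 := h5.trans_lt h
    simp only [Nat.totient_one, Nat.cast_one, one_mul, div_one] at h7
    rw [lt_div_iff₀ (by linarith)] at h7
    linarith

end Pool.Agent.P.MP_26a8c3_nt.Old.SharpShift
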